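import Pool.Agent.TurMod.Exact
import Pool.Agent.TurMod.Lower

/-!
# MP_7145a1_co: the conjecture (value and uniqueness) for all large `k`
-/

namespace Pool.Agent.Results.MP_7145a1_co.ExactLargeK

open Finset

/-- `G` has no cycle whose length leaves the remainder `l` on division by `k` -/
def CycleFree (k l n : ℕ) (G : SimpleGraph (Fin n)) : Prop :=
  ∀ (v : Fin n) (c : G.Walk v v), c.IsCycle → c.length % k ≠ l

/-- the largest number of edges of a graph on `n` vertices without cycles of length `l` mod `k` -/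
noncomputable def ex (n k l : ℕ) : ℕ :=
  sSup {e : ℕ | ∃ G : SimpleGraph (Fin n), CycleFree k l n G ∧ e = G.edgeSet.ncard}

theorem iso_of_kab (n a : ℕ) (G : SimpleGraph (Fin n)) (A : Finset (Fin n)) (hA : A.card = a)
    (h : TurMod.KAB G A) : Nonempty (G ≃g completeBipartiteGraph (Fin a) (Fin (n - a))) := by
  classical
  have e1 : {x // x ∈ A} ≃ Fin a := Fintype.equivFinOfCardEq (by rw [Fintype.card_coe, hA])
  have e2 : {x // x ∉ A} ≃ Fin (n - a) := Fintype.equivFinOfCardEq (by
    rw [Fintype.card_subtype_compl, Fintype.card_coe, hA, Fintype.card_fin])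
  refine ⟨RelIso.symm ⟨(Equiv.sumCongr e1.symm e2.symm).trans (Equiv.sumCompl (fun x => x ∈ A)),
    ?_⟩⟩
  rintro (x | x) (y | y)
  · simp only [Equiv.trans_apply, Equiv.sumCongr_apply, Sum.map_inl, Equiv.sumCompl_apply_inl,
      completeBipartiteGraph_adj]
    rw [h]
    simp
  · simp only [Equiv.trans_apply, Equiv.sumCongr_apply, Sum.map_inl, Sum.map_inr,
      Equiv.sumCompl_apply_inl, Equiv.sumCompl_apply_inr, completeBipartiteGraph_adj]
    rw [h]
    simp [(e1.symm x).2, (e2.symm y).2]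
  · simp only [Equiv.trans_apply, Equiv.sumCongr_apply, Sum.map_inl, Sum.map_inr,
      Equiv.sumCompl_apply_inl, Equiv.sumCompl_apply_inr, completeBipartiteGraph_adj]
    rw [h]
    simp [(e1.symm y).2, (e2.symm x).2]
  · simp only [Equiv.trans_apply, Equiv.sumCongr_apply, Sum.map_inr, Equiv.sumCompl_apply_inr,
      completeBipartiteGraph_adj]
    rw [h]
    simp [(e2.symm x).2, (e2.symm y).2]

theorem result : ∃ k₀ : ℕ, ∀ k l n : ℕ, k₀ ≤ k → Odd k → Odd l → 3 ≤ l → l < k →
    k + l ≤ n → ∀ a : ℕ, a = (k + l - 2) / 2 →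
      ex n k l = a * (n - a) ∧
      ∀ G : SimpleGraph (Fin n), CycleFree k l n G → G.edgeSet.ncard = a * (n - a) →
        Nonempty (G ≃g completeBipartiteGraph (Fin a) (Fin (n - a))) := by
  classical
  obtain ⟨m₀, h⟩ := TurMod.exact_large.{0}
  refine ⟨2 * m₀, ?_⟩
  intro k l n hk hodd hl h3 hlk hn a ha
  obtain ⟨k', hk'⟩ := hodd
  obtain ⟨l', hl'⟩ := hl
  obtain ⟨m, hm⟩ : ∃ m, m = k' + l' + 1 := ⟨_, rfl⟩
  have h2m : 2 * m = k + l := by omega
  have ham : a = m - 1 := by omega
  have hkm : 2 * m - l = k := by omega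
  have han : a ≤ n := by omega
  have hfree : ∀ G : SimpleGraph (Fin n), CycleFree k l n G → TurMod.FreeC G m l := by
    rintro G hG L ⟨v, c, hc, rfl⟩
    rw [hkm]
    exact hG v c hc
  have hnc : ∀ G : SimpleGraph (Fin n), TurMod.vol G Finset.univ = 2 * G.edgeSet.ncard := by
    intro G
    rw [TurMod.vol_univ_eq, ← SimpleGraph.coe_edgeFinset, Set.ncard_coe_finset]
  have key : ∀ G : SimpleGraph (Fin n), CycleFree k l n G → a * (n - a) ≤ G.edgeSet.ncard →
      ∃ A : Finset (Fin n), A.card = a ∧ TurMod.KAB G A := by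
    intro G hG hE
    obtain ⟨A, hA, hK⟩ := h m (by omega) l ⟨l', hl'⟩ h3 (by omega) (Fin n) G
      (by rw [Fintype.card_fin]; omega) (hfree G hG) (by
        rw [Fintype.card_fin, hnc, ← ham]
        exact Nat.mul_le_mul_left 2 hE)
    exact ⟨A, by rw [ham]; exact hA, hK⟩
  have hup : ∀ G : SimpleGraph (Fin n), CycleFree k l n G → G.edgeSet.ncard ≤ a * (n - a) := by
    intro G hG
    by_contra hlt
    push Not at hlt
    obtain ⟨A, hA, hK⟩ := key G hG hlt.le
    have h1 := hK.vol
    rw [hnc, hA, Fintype.card_fin] at h1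
    omega
  have hbdd : BddAbove {e : ℕ | ∃ G : SimpleGraph (Fin n), CycleFree k l n G ∧
      e = G.edgeSet.ncard} := by
    refine ⟨a * (n - a), ?_⟩
    rintro e ⟨G, hG, rfl⟩
    exact hup G hG
  have hlow : a * (n - a) ∈ {e : ℕ | ∃ G : SimpleGraph (Fin n), CycleFree k l n G ∧
      e = G.edgeSet.ncard} := by
    refine ⟨TurMod.kab n a, ?_, ?_⟩
    · intro v c hc hck
      have h1 := TurMod.kab_length c hc
      obtain ⟨t, ht⟩ := TurMod.kab_even c
      have h2 : c.length < 2 * k := by omega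
      have h3 : c.length = l ∨ c.length = l + k := by
        have := Nat.div_add_mod c.length k
        rw [hck] at this
        have h4 : c.length / k < 2 := Nat.div_lt_of_lt_mul (by omega)
        interval_cases h5 : c.length / k <;> omega
      rcases h3 with h3 | h3 <;> omega
    · have h1 := TurMod.kab_vol (n := n) (a := a) han
      rw [hnc] at h1
      omega
  refine ⟨le_antisymm ?_ (le_csSup hbdd hlow), ?_⟩
  · obtain ⟨G, hG, hGe⟩ := Nat.sSup_mem ⟨_, hlow⟩ hbdd
    have h5 : ex n k l = G.edgeSet.ncard := hGe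
    rw [h5]
    exact hup G hG
  · intro G hG hE
    obtain ⟨A, hA, hK⟩ := key G hG hE.ge
    exact iso_of_kab n a G A hA hK

end Pool.Agent.Results.MP_7145a1_co.ExactLargeK
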